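import Mathlib

/-!
# Upper bound for the size of concept classes of given no-clash teaching dimension
-/

set_option autoImplicit false

namespace Pool.Agent.Results.MP_4dbef5_lc.UpperBound

open Finset

/-- `T` is an NC-teacher for the concept class `𝒞` over `[n]`. -/
def IsNCTeacher {n : ℕ} (𝒞 : Finset (Finset (Fin n))) (T : Finset (Fin n) → Finset (Fin n)) :
    Prop :=
  ∀ C ∈ 𝒞, ∀ C' ∈ 𝒞, C ≠ C' → ∃ x ∈ T C ∪ T C', ¬ (x ∈ C ↔ x ∈ C')

/-- The NC-dimension: the least `d` such that some NC-teacher assigns to every concept of the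
class a set of size at most `d`. -/
noncomputable def NCTD {n : ℕ} (𝒞 : Finset (Finset (Fin n))) : ℕ :=
  sInf {d | ∃ T, IsNCTeacher 𝒞 T ∧ ∀ C ∈ 𝒞, (T C).card ≤ d}

/-- `M_NC(n, d)`: the largest cardinality of a concept class over `[n]` of NC-dimension exactly
`d`. -/
noncomputable def MNC (n d : ℕ) : ℕ :=
  sSup {m | ∃ 𝒞 : Finset (Finset (Fin n)), NCTD 𝒞 = d ∧ 𝒞.card = m}

/-- The largest cardinality of a concept class over `[n]` of NC-dimension at most `d`. -/
noncomputable def MNCle (n d : ℕ) : ℕ :=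
  sSup {m | ∃ 𝒞 : Finset (Finset (Fin n)), NCTD 𝒞 ≤ d ∧ 𝒞.card = m}

theorem exists_teacher {n : ℕ} (𝒞 : Finset (Finset (Fin n))) :
    ∃ T, IsNCTeacher 𝒞 T ∧ ∀ C ∈ 𝒞, (T C).card ≤ NCTD 𝒞 := by
  have hne : {d | ∃ T, IsNCTeacher 𝒞 T ∧ ∀ C ∈ 𝒞, (T C).card ≤ d}.Nonempty := by
    refine ⟨n, fun _ => univ, ?_, fun C _ => by simp⟩
    intro C _ C' _ hne
    by_contra h
    push Not at h
    apply hne
    ext x
    exact h x (by simp)
  exact Nat.sInf_mem hne

theorem bdd (n : ℕ) (P : Finset (Finset (Fin n)) → Prop) :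
    BddAbove {m | ∃ 𝒞 : Finset (Finset (Fin n)), P 𝒞 ∧ 𝒞.card = m} := by
  refine ⟨2 ^ n, ?_⟩
  rintro m ⟨𝒞, _, rfl⟩
  calc 𝒞.card ≤ (univ : Finset (Finset (Fin n))).card := card_le_univ _
    _ = 2 ^ n := by simp

/-- enlarge the teaching sets -/
theorem enlarge {n d : ℕ} (hd : d ≤ n) {𝒞 : Finset (Finset (Fin n))}
    {T : Finset (Fin n) → Finset (Fin n)} (hT : IsNCTeacher 𝒞 T) (hc : ∀ C ∈ 𝒞, (T C).card ≤ d) :
    ∃ T', IsNCTeacher 𝒞 T' ∧ ∀ C ∈ 𝒞, (T' C).card = d := by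
  have h : ∀ C, ∃ S : Finset (Fin n), C ∈ 𝒞 → T C ⊆ S ∧ S.card = d := by
    intro C
    by_cases hC : C ∈ 𝒞
    · obtain ⟨S, h1, h2⟩ := Finset.exists_superset_card_eq (hc C hC) (by simpa using hd)
      exact ⟨S, fun _ => ⟨h1, h2⟩⟩
    · exact ⟨∅, fun h => absurd h hC⟩
  choose T' hT' using h
  refine ⟨T', ?_, fun C hC => (hT' C hC).2⟩
  intro C hC C' hC' hne
  obtain ⟨x, hx, h1⟩ := hT C hC C' hC' hne
  refine ⟨x, ?_, h1⟩
  rw [mem_union] at hx ⊢
  rcases hx with hx | hx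
  · exact Or.inl ((hT' C hC).1 hx)
  · exact Or.inr ((hT' C' hC').1 hx)

/-- the restriction of a concept along an embedding -/
def res {s n : ℕ} (e : Fin s → Fin n) (C : Finset (Fin n)) : Finset (Fin s) :=
  univ.filter fun i => e i ∈ C

theorem mem_res {s n : ℕ} (e : Fin s → Fin n) (C : Finset (Fin n)) (i : Fin s) :
    i ∈ res e C ↔ e i ∈ C := by simp [res]

theorem le_MNCle {n d : ℕ} {𝒞 : Finset (Finset (Fin n))} {T : Finset (Fin n) → Finset (Fin n)}
    (hT : IsNCTeacher 𝒞 T) (hc : ∀ C ∈ 𝒞, (T C).card ≤ d) : 𝒞.card ≤ MNCle n d :=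
  le_csSup (bdd n fun 𝒞 => NCTD 𝒞 ≤ d) ⟨𝒞, Nat.sInf_le ⟨T, hT, hc⟩, rfl⟩

theorem local_bound {n d s : ℕ} {𝒞 : Finset (Finset (Fin n))}
    {T : Finset (Fin n) → Finset (Fin n)} (hT : IsNCTeacher 𝒞 T)
    (hc : ∀ C ∈ 𝒞, (T C).card = d) (S : Finset (Fin n)) (hS : S.card = s) :
    (𝒞.filter fun C => T C ⊆ S).card ≤ MNCle s d := by
  classical
  set e : Fin s → Fin n := fun i => S.orderEmbOfFin hS i with he
  have einj : Function.Injective e := (S.orderEmbOfFin hS).injective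
  have hmem : ∀ x ∈ S, ∃ i, e i = x := by
    intro x hx
    have h1 : x ∈ Set.range (S.orderEmbOfFin hS) := by
      rw [Finset.range_orderEmbOfFin]
      exact hx
    obtain ⟨i, hi⟩ := h1
    exact ⟨i, hi⟩
  set 𝒮 := 𝒞.filter fun C => T C ⊆ S with h𝒮
  have hdiff : ∀ C ∈ 𝒮, ∀ C' ∈ 𝒮, C ≠ C' →
      ∃ i ∈ res e (T C) ∪ res e (T C'), ¬ (i ∈ res e C ↔ i ∈ res e C') := by
    intro C hC C' hC' hne
    rw [h𝒮, mem_filter] at hC hC'
    obtain ⟨x, hx, h1⟩ := hT C hC.1 C' hC'.1 hne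
    have hxS : x ∈ S := by
      rw [mem_union] at hx
      rcases hx with hx | hx
      · exact hC.2 hx
      · exact hC'.2 hx
    obtain ⟨i, rfl⟩ := hmem x hxS
    refine ⟨i, ?_, ?_⟩
    · rw [mem_union, mem_res, mem_res, ← mem_union]
      exact hx
    · rw [mem_res, mem_res]
      exact h1
  have hinj : Set.InjOn (res e) (𝒮 : Set (Finset (Fin n))) := by
    intro C hC C' hC' h
    by_contra hne
    obtain ⟨i, _, h1⟩ := hdiff C hC C' hC' hne
    apply h1
    rw [h]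
  rw [← card_image_of_injOn hinj]
  have hex : ∀ D : Finset (Fin s), ∃ C, D ∈ 𝒮.image (res e) → C ∈ 𝒮 ∧ res e C = D := by
    intro D
    by_cases hD : D ∈ 𝒮.image (res e)
    · obtain ⟨C, hC, h⟩ := mem_image.1 hD
      exact ⟨C, fun _ => ⟨hC, h⟩⟩
    · exact ⟨∅, fun h => absurd h hD⟩
  choose g hg using hex
  refine le_MNCle (T := fun D => res e (T (g D))) ?_ ?_
  · intro D hD D' hD' hne
    obtain ⟨h1, h2⟩ := hg D hD
    obtain ⟨h3, h4⟩ := hg D' hD'
    have hne' : g D ≠ g D' := by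
      intro h
      apply hne
      rw [← h2, ← h4, h]
    obtain ⟨i, hi, h5⟩ := hdiff _ h1 _ h3 hne'
    rw [h2, h4] at h5
    exact ⟨i, hi, h5⟩
  · intro D hD
    obtain ⟨h1, h2⟩ := hg D hD
    have h3 : (T (g D)).card = d := hc _ (mem_filter.1 h1).1
    rw [← h3]
    refine card_le_card_of_injOn e ?_ einj.injOn
    intro i hi
    exact (mem_res e _ i).1 hi

theorem card_supersets {n d s : ℕ} (hds : d ≤ s) (A : Finset (Fin n)) (hA : A.card = d) :
    (n - d).choose (s - d) ≤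
      ((univ.powersetCard s : Finset (Finset (Fin n))).filter fun S => A ⊆ S).card := by
  classical
  have h1 : ((univ \ A).powersetCard (s - d)).card = (n - d).choose (s - d) := by
    rw [card_powersetCard, card_sdiff_of_subset (subset_univ A), hA]
    simp
  rw [← h1]
  refine card_le_card_of_injOn (fun B => B ∪ A) ?_ ?_
  · intro B hB
    obtain ⟨hB1, hB2⟩ := mem_powersetCard.1 hB
    have hdis : Disjoint B A := by
      rw [Finset.disjoint_left]
      intro x hx hxA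
      exact (mem_sdiff.1 (hB1 hx)).2 hxA
    rw [mem_coe, mem_filter, mem_powersetCard]
    refine ⟨⟨subset_univ _, ?_⟩, subset_union_right⟩
    rw [card_union_of_disjoint hdis, hB2, hA]
    omega
  · intro B hB B' hB' h
    obtain ⟨hB1, -⟩ := mem_powersetCard.1 hB
    obtain ⟨hB1', -⟩ := mem_powersetCard.1 hB'
    have key : ∀ B : Finset (Fin n), B ⊆ univ \ A → (B ∪ A) \ A = B := by
      intro B hB
      ext x
      simp only [mem_sdiff, mem_union]
      constructor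
      · rintro ⟨h1 | h1, h2⟩
        · exact h1
        · exact absurd h1 h2
      · intro hx
        exact ⟨Or.inl hx, (mem_sdiff.1 (hB hx)).2⟩
    have h' : B ∪ A = B' ∪ A := h
    rw [← key B hB1, ← key B' hB1', h']

/-- the averaging inequality -/
theorem averaging {n d s : ℕ} (hds : d ≤ s) (hsn : s ≤ n) {𝒞 : Finset (Finset (Fin n))}
    {T : Finset (Fin n) → Finset (Fin n)} (hT : IsNCTeacher 𝒞 T)
    (hc : ∀ C ∈ 𝒞, (T C).card ≤ d) : 𝒞.card * s.choose d ≤ MNCle s d * n.choose d := by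
  classical
  obtain ⟨T', hT', hc'⟩ := enlarge (hds.trans hsn) hT hc
  have h1 : 𝒞.card * (n - d).choose (s - d) ≤ n.choose s * MNCle s d := by
    calc 𝒞.card * (n - d).choose (s - d) = ∑ C ∈ 𝒞, (n - d).choose (s - d) := by simp
      _ ≤ ∑ C ∈ 𝒞, ((univ.powersetCard s : Finset (Finset (Fin n))).filter
            fun S => T' C ⊆ S).card := sum_le_sum fun C hC => card_supersets hds _ (hc' C hC)
      _ = ∑ S ∈ (univ.powersetCard s : Finset (Finset (Fin n))),
            (𝒞.filter fun C => T' C ⊆ S).card := by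
          simp only [card_filter]
          exact sum_comm
      _ ≤ ∑ S ∈ (univ.powersetCard s : Finset (Finset (Fin n))), MNCle s d :=
          sum_le_sum fun S hS => local_bound hT' hc' S (mem_powersetCard.1 hS).2
      _ = n.choose s * MNCle s d := by simp
  have h2 : n.choose s * s.choose d = n.choose d * (n - d).choose (s - d) :=
    Nat.choose_mul hds
  have h3 : 0 < (n - d).choose (s - d) := Nat.choose_pos (by omega)
  refine Nat.le_of_mul_le_mul_right ?_ h3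
  calc 𝒞.card * s.choose d * (n - d).choose (s - d)
      = 𝒞.card * (n - d).choose (s - d) * s.choose d := by ring
    _ ≤ n.choose s * MNCle s d * s.choose d := Nat.mul_le_mul_right _ h1
    _ = MNCle s d * (n.choose s * s.choose d) := by ring
    _ = MNCle s d * n.choose d * (n - d).choose (s - d) := by rw [h2]; ring

theorem MNCle_le_two_pow (n d : ℕ) : MNCle n d ≤ 2 ^ n := by
  refine csSup_le' ?_
  rintro m ⟨𝒞, _, rfl⟩
  calc 𝒞.card ≤ (univ : Finset (Finset (Fin n))).card := card_le_univ _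
    _ = 2 ^ n := by simp

theorem MNCle_bound {n d : ℕ} (hd : 2 * d ≤ n + 1) :
    MNCle n d * (2 * d).choose d ≤ 4 ^ d * n.choose d := by
  rcases Nat.lt_or_ge n (2 * d) with h | h
  · have h1 : n + 1 = 2 * d := by omega
    obtain ⟨e, rfl⟩ : ∃ e, d = e + 1 := ⟨d - 1, by omega⟩
    have hn : n = 2 * e + 1 := by omega
    subst hn
    have h2 : (2 * (e + 1)).choose (e + 1) = 2 * (2 * e + 1).choose (e + 1) := by
      have h3 : 2 * (e + 1) = (2 * e + 1) + 1 := by ring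
      rw [h3, Nat.choose_succ_succ, Nat.choose_symm_half]
      ring
    rw [h2]
    calc MNCle (2 * e + 1) (e + 1) * (2 * (2 * e + 1).choose (e + 1))
        ≤ 2 ^ (2 * e + 1) * (2 * (2 * e + 1).choose (e + 1)) :=
          Nat.mul_le_mul_right _ (MNCle_le_two_pow _ _)
      _ = (2 ^ 2) ^ (e + 1) * (2 * e + 1).choose (e + 1) := by
          rw [← pow_mul]; ring
      _ = 4 ^ (e + 1) * (2 * e + 1).choose (e + 1) := by norm_num
  · have hne : {m | ∃ 𝒞 : Finset (Finset (Fin n)), NCTD 𝒞 ≤ d ∧ 𝒞.card = m}.Nonempty := by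
      refine ⟨0, ∅, ?_, by simp⟩
      exact Nat.sInf_le ⟨fun _ => ∅, by intro C hC; simp at hC, by simp⟩
    obtain ⟨𝒞, h1, h2⟩ := Nat.sSup_mem hne (bdd n fun 𝒞 => NCTD 𝒞 ≤ d)
    obtain ⟨T, hT, hc⟩ := exists_teacher 𝒞
    have h3 := averaging (s := 2 * d) (by omega) h hT fun C hC => (hc C hC).trans h1
    have h4 : MNCle n d = 𝒞.card := h2.symm
    rw [h4]
    refine h3.trans ?_
    refine Nat.mul_le_mul_right _ ?_
    calc MNCle (2 * d) d ≤ 2 ^ (2 * d) := MNCle_le_two_pow _ _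
      _ = 4 ^ d := by rw [pow_mul]; norm_num

/-- the standard teacher for the class of all concepts -/
def cubeTeacher (n : ℕ) (C : Finset (Fin n)) : Finset (Fin n) :=
  univ.filter fun x => (x.1 % 2 = 0 ∧ ∀ y : Fin n, y.1 = x.1 + 1 → (x ∈ C ↔ y ∈ C)) ∨
    (x.1 % 2 = 1 ∧ ∀ y : Fin n, y.1 + 1 = x.1 → ¬ (x ∈ C ↔ y ∈ C))

theorem cubeTeacher_nc (n : ℕ) (𝒞 : Finset (Finset (Fin n))) :
    IsNCTeacher 𝒞 (cubeTeacher n) := by
  intro C _ C' _ hne
  by_contra hcon
  push Not at hcon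
  apply hne
  have hmem : ∀ (C : Finset (Fin n)) (x : Fin n), x ∈ cubeTeacher n C ↔
      ((x.1 % 2 = 0 ∧ ∀ y : Fin n, y.1 = x.1 + 1 → (x ∈ C ↔ y ∈ C)) ∨
        (x.1 % 2 = 1 ∧ ∀ y : Fin n, y.1 + 1 = x.1 → ¬ (x ∈ C ↔ y ∈ C))) := by
    intro C x
    simp [cubeTeacher]
  have hc1 : ∀ x ∈ cubeTeacher n C, (x ∈ C ↔ x ∈ C') := fun x hx =>
    hcon x (mem_union_left _ hx)
  have hc2 : ∀ x ∈ cubeTeacher n C', (x ∈ C ↔ x ∈ C') := fun x hx =>
    hcon x (mem_union_right _ hx)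
  -- agreement on a pair
  have hpair : ∀ x y : Fin n, x.1 % 2 = 0 → y.1 = x.1 + 1 →
      (x ∈ C ↔ x ∈ C') ∧ (y ∈ C ↔ y ∈ C') := by
    intro x y hx hy
    have ex : ∀ D : Finset (Fin n), (x ∈ D ↔ y ∈ D) → x ∈ cubeTeacher n D := by
      intro D h
      rw [hmem]
      refine Or.inl ⟨hx, fun z hz => ?_⟩
      have : z = y := Fin.ext (by omega)
      rw [this]
      exact h
    have ey : ∀ D : Finset (Fin n), ¬ (x ∈ D ↔ y ∈ D) → y ∈ cubeTeacher n D := by
      intro D h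
      rw [hmem]
      refine Or.inr ⟨by omega, fun z hz => ?_⟩
      have : z = x := Fin.ext (by omega)
      rw [this]
      exact fun h' => h h'.symm
    by_cases h1 : (x ∈ C ↔ y ∈ C) <;> by_cases h2 : (x ∈ C' ↔ y ∈ C')
    · have h3 := hc1 x (ex C h1)
      exact ⟨h3, h1.symm.trans (h3.trans h2)⟩
    · have h3 := hc1 x (ex C h1)
      have h4 := hc2 y (ey C' h2)
      exact ⟨h3, h4⟩
    · have h3 := hc2 x (ex C' h2)
      have h4 := hc1 y (ey C h1)
      exact ⟨h3, h4⟩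
    · have h4 := hc1 y (ey C h1)
      refine ⟨?_, h4⟩
      tauto
  ext x
  rcases Nat.mod_two_eq_zero_or_one x.1 with h | h
  · by_cases hx : x.1 + 1 < n
    · exact (hpair x ⟨x.1 + 1, hx⟩ h rfl).1
    · refine hc1 x ?_
      rw [hmem]
      refine Or.inl ⟨h, fun y hy => ?_⟩
      exact absurd y.2 (by omega)
  · have h0 : x.1 - 1 < n := by omega
    exact (hpair ⟨x.1 - 1, h0⟩ x (by simp only; omega) (by simp only; omega)).2

theorem cubeTeacher_card (n : ℕ) (C : Finset (Fin n)) :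
    (cubeTeacher n C).card ≤ (n + 1) / 2 := by
  rw [← card_range ((n + 1) / 2)]
  refine card_le_card_of_injOn (fun x => x.1 / 2) ?_ ?_
  · intro x _
    rw [mem_coe, mem_range]
    have := x.2
    simp only
    omega
  · intro x hx y hy hxy
    simp only at hxy
    have hx' := (mem_filter.1 hx).2
    have hy' := (mem_filter.1 hy).2
    apply Fin.ext
    rcases hx' with ⟨h1, h2⟩ | ⟨h1, h2⟩ <;> rcases hy' with ⟨h3, h4⟩ | ⟨h3, h4⟩
    · omega
    · exfalso
      exact h4 x (by omega) (h2 y (by omega)).symm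
    · exfalso
      exact h2 y (by omega) (h4 x (by omega)).symm
    · omega

theorem NCTD_le (n : ℕ) (𝒞 : Finset (Finset (Fin n))) : NCTD 𝒞 ≤ (n + 1) / 2 :=
  Nat.sInf_le ⟨cubeTeacher n, cubeTeacher_nc n 𝒞, fun C _ => cubeTeacher_card n C⟩

theorem MNC_le_MNCle (n d : ℕ) : MNC n d ≤ MNCle n d := by
  refine csSup_le' ?_
  rintro m ⟨𝒞, h1, rfl⟩
  exact le_csSup (bdd n fun 𝒞 => NCTD 𝒞 ≤ d) ⟨𝒞, h1.le, rfl⟩

theorem MNC_bound (n d : ℕ) : MNC n d * (2 * d).choose d ≤ 4 ^ d * n.choose d := by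
  by_cases hd : 2 * d ≤ n + 1
  · exact (Nat.mul_le_mul_right _ (MNC_le_MNCle n d)).trans (MNCle_bound hd)
  · have h : MNC n d = 0 := by
      have : {m | ∃ 𝒞 : Finset (Finset (Fin n)), NCTD 𝒞 = d ∧ 𝒞.card = m} = ∅ := by
        ext m
        simp only [Set.mem_ofPred_eq, Set.mem_empty_iff_false, iff_false, not_exists, not_and]
        intro 𝒞 h1
        have := NCTD_le n 𝒞
        omega
      unfold MNC
      rw [this]
      exact csSup_empty
    rw [h, zero_mul]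
    exact Nat.zero_le _

theorem central (d : ℕ) (hd : 1 ≤ d) : 4 ^ d * 4 ^ d ≤ 4 * d * ((2 * d).choose d * (2 * d).choose d) := by
  induction d, hd using Nat.le_induction with
  | base => decide
  | succ d hd ih =>
    have h1 : (2 * (d + 1)).choose (d + 1) * (d + 1) = 2 * (2 * d + 1) * (2 * d).choose d := by
      have := Nat.succ_mul_centralBinom_succ d
      unfold Nat.centralBinom at this
      rw [mul_comm]
      exact this
    refine Nat.le_of_mul_le_mul_right (c := (d + 1) * (d + 1)) ?_ (by positivity)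
    calc 4 ^ (d + 1) * 4 ^ (d + 1) * ((d + 1) * (d + 1))
        = 16 * (d + 1) * (d + 1) * (4 ^ d * 4 ^ d) := by ring
      _ ≤ 16 * (d + 1) * (d + 1) * (4 * d * ((2 * d).choose d * (2 * d).choose d)) :=
          Nat.mul_le_mul_left _ ih
      _ = (4 * d * (d + 1)) * (16 * (d + 1) * ((2 * d).choose d * (2 * d).choose d)) := by ring
      _ ≤ ((2 * d + 1) * (2 * d + 1)) * (16 * (d + 1) * ((2 * d).choose d * (2 * d).choose d)) :=
          Nat.mul_le_mul_right _ (by nlinarith)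
      _ = 4 * (d + 1) * ((2 * (2 * d + 1) * (2 * d).choose d) *
            (2 * (2 * d + 1) * (2 * d).choose d)) := by ring
      _ = 4 * (d + 1) * (((2 * (d + 1)).choose (d + 1) * (d + 1)) *
            ((2 * (d + 1)).choose (d + 1) * (d + 1))) := by rw [h1]
      _ = 4 * (d + 1) * ((2 * (d + 1)).choose (d + 1) * (2 * (d + 1)).choose (d + 1)) *
            ((d + 1) * (d + 1)) := by ring

/-- **Upper bound for `M_NC`.** `M_NC(n, d) ≤ (4^d / C(2d, d)) C(n, d) ≤ 2 √d C(n, d)`, and the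
ratio (largest size of a class over `[n]` of NC-dimension at most `d`) `/ C(n, d)` does not
increase with `n`. -/
theorem result (n d : ℕ) (hd : 1 ≤ d) :
    (MNC n d : ℝ) ≤ (4 ^ d / ((2 * d).choose d : ℝ)) * (n.choose d : ℝ) ∧
    (MNC n d : ℝ) ≤ 2 * √(d : ℝ) * (n.choose d : ℝ) ∧
    ∀ s, d ≤ s → s ≤ n → MNCle n d * s.choose d ≤ MNCle s d * n.choose d := by
  have hpos : (0 : ℝ) < ((2 * d).choose d : ℝ) := by
    exact_mod_cast Nat.choose_pos (by omega)
  have h1 : (MNC n d : ℝ) ≤ (4 ^ d / ((2 * d).choose d : ℝ)) * (n.choose d : ℝ) := by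
    rw [div_mul_eq_mul_div, le_div_iff₀ hpos]
    exact_mod_cast MNC_bound n d
  refine ⟨h1, ?_, ?_⟩
  · refine h1.trans (mul_le_mul_of_nonneg_right ?_ (by positivity))
    rw [div_le_iff₀ hpos]
    have h2 : ((4 : ℝ) ^ d) ^ 2 ≤ (2 * √(d : ℝ) * ((2 * d).choose d : ℝ)) ^ 2 := by
      have h3 := central d hd
      have h4 : ((4 : ℝ) ^ d * 4 ^ d) ≤ 4 * d * (((2 * d).choose d : ℝ) * ((2 * d).choose d : ℝ)) := by
        exact_mod_cast h3
      have h5 : √(d : ℝ) ^ 2 = d := Real.sq_sqrt (by positivity)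
      calc ((4 : ℝ) ^ d) ^ 2 = (4 : ℝ) ^ d * 4 ^ d := by ring
        _ ≤ 4 * d * (((2 * d).choose d : ℝ) * ((2 * d).choose d : ℝ)) := h4
        _ = 4 * √(d : ℝ) ^ 2 * (((2 * d).choose d : ℝ) * ((2 * d).choose d : ℝ)) := by rw [h5]
        _ = (2 * √(d : ℝ) * ((2 * d).choose d : ℝ)) ^ 2 := by ring
    exact le_of_sq_le_sq h2 (by positivity)
  · intro s hds hsn
    have hne : {m | ∃ 𝒞 : Finset (Finset (Fin n)), NCTD 𝒞 ≤ d ∧ 𝒞.card = m}.Nonempty := by
      refine ⟨0, ∅, ?_, by simp⟩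
      exact Nat.sInf_le ⟨fun _ => ∅, by intro C hC; simp at hC, by simp⟩
    obtain ⟨𝒞, h2, h3⟩ := Nat.sSup_mem hne (bdd n fun 𝒞 => NCTD 𝒞 ≤ d)
    obtain ⟨T, hT, hc⟩ := exists_teacher 𝒞
    have h4 : MNCle n d = 𝒞.card := h3.symm
    rw [h4]
    exact averaging hds hsn hT fun C hC => (hc C hC).trans h2

end Pool.Agent.Results.MP_4dbef5_lc.UpperBound
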