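import Mathlib
import Pool.Agent.Results.MP_4dbef5_lc.UpperBound

/-!
# Concept classes of no-clash teaching dimension two
-/

set_option autoImplicit false

namespace Pool.Agent.Results.MP_4dbef5_lc.DimensionTwo

open Finset Pool.Agent.Results.MP_4dbef5_lc.UpperBound

variable {n : ℕ} {𝒞 : Finset (Finset (Fin n))} {T : Finset (Fin n) → Finset (Fin n)}

theorem local_pow (hT : IsNCTeacher 𝒞 T) (V : Finset (Fin n)) :
    (𝒞.filter fun C => T C ⊆ V).card ≤ 2 ^ V.card := by
  rw [← card_powerset]
  refine card_le_card_of_injOn (fun C => C ∩ V) ?_ ?_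
  · intro C _
    rw [mem_coe, mem_powerset]
    exact inter_subset_right
  · intro C hC C' hC' h
    have hC := mem_filter.1 hC
    have hC' := mem_filter.1 hC'
    by_contra hne
    obtain ⟨x, hx, h1⟩ := hT C hC.1 C' hC'.1 hne
    have hxV : x ∈ V := by
      rw [mem_union] at hx
      rcases hx with hx | hx
      · exact hC.2 hx
      · exact hC'.2 hx
    apply h1
    have h2 : (x ∈ C ∩ V ↔ x ∈ C' ∩ V) := by
      have h3 : C ∩ V = C' ∩ V := h
      rw [h3]
    simpa [hxV] using h2

/-- the number of concepts with teaching set `P` -/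
def N (𝒞 : Finset (Finset (Fin n))) (T : Finset (Fin n) → Finset (Fin n)) (P : Finset (Fin n)) :
    ℕ :=
  (𝒞.filter fun C => T C = P).card

theorem N_pair_le (hT : IsNCTeacher 𝒞 T) {x y : Fin n} (hxy : x ≠ y) : N 𝒞 T {x, y} ≤ 4 := by
  have h := local_pow hT {x, y}
  rw [card_pair hxy] at h
  refine le_trans (card_le_card ?_) h
  intro C hC
  rw [mem_filter] at hC ⊢
  exact ⟨hC.1, hC.2.subset⟩

theorem N_triple_le (hT : IsNCTeacher 𝒞 T) {x y z : Fin n} (hxy : x ≠ y) (hxz : x ≠ z)
    (hyz : y ≠ z) : N 𝒞 T {x, y} + (N 𝒞 T {x, z} + N 𝒞 T {y, z}) ≤ 8 := by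
  have h := local_pow hT {x, y, z}
  have hc : ({x, y, z} : Finset (Fin n)).card = 3 := card_eq_three.2 ⟨x, y, z, hxy, hxz, hyz, rfl⟩
  rw [hc] at h
  have h1 : ({x, y} : Finset (Fin n)) ≠ {x, z} := by
    intro h2
    have : y ∈ ({x, z} : Finset (Fin n)) := by rw [← h2]; simp
    simp [hxy.symm, hyz] at this
  have h2 : ({x, y} : Finset (Fin n)) ≠ {y, z} := by
    intro h2
    have : x ∈ ({y, z} : Finset (Fin n)) := by rw [← h2]; simp
    simp [hxy, hxz] at this
  have h3 : ({x, z} : Finset (Fin n)) ≠ {y, z} := by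
    intro h2
    have : x ∈ ({y, z} : Finset (Fin n)) := by rw [← h2]; simp
    simp [hxy, hxz] at this
  unfold N
  rw [← card_union_of_disjoint (by
      rw [Finset.disjoint_left]
      intro C hC hC'
      exact h3 ((mem_filter.1 hC).2.symm.trans (mem_filter.1 hC').2)),
    ← card_union_of_disjoint (by
      rw [Finset.disjoint_left]
      intro C hC hC'
      rcases mem_union.1 hC' with hC' | hC'
      · exact h1 ((mem_filter.1 hC).2.symm.trans (mem_filter.1 hC').2)
      · exact h2 ((mem_filter.1 hC).2.symm.trans (mem_filter.1 hC').2))]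
  refine le_trans (card_le_card ?_) h
  intro C hC
  rcases mem_union.1 hC with hC | hC
  · rw [mem_filter] at hC ⊢
    refine ⟨hC.1, ?_⟩
    rw [hC.2]
    intro a ha
    simp only [mem_insert, mem_singleton] at ha ⊢
    tauto
  · rcases mem_union.1 hC with hC | hC
    · rw [mem_filter] at hC ⊢
      refine ⟨hC.1, ?_⟩
      rw [hC.2]
      intro a ha
      simp only [mem_insert, mem_singleton] at ha ⊢
      tauto
    · rw [mem_filter] at hC ⊢
      refine ⟨hC.1, ?_⟩
      rw [hC.2]
      intro a ha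
      simp only [mem_insert, mem_singleton] at ha ⊢
      tauto

theorem decompose (hc : ∀ C ∈ 𝒞, (T C).card = 2) {V : Finset (Fin n)} {x y : Fin n}
    (hxy : x ≠ y) :
    (𝒞.filter fun C => T C ⊆ V).card ≤ (𝒞.filter fun C => T C ⊆ V \ {x, y}).card +
      (N 𝒞 T {x, y} + ∑ z ∈ V \ {x, y}, (N 𝒞 T {x, z} + N 𝒞 T {y, z})) := by
  have h1 : (𝒞.filter fun C => T C ⊆ V) ⊆ (𝒞.filter fun C => T C ⊆ V \ {x, y}) ∪
      ((𝒞.filter fun C => T C = {x, y}) ∪ (V \ {x, y}).biUnion fun z =>
        (𝒞.filter fun C => T C = {x, z}) ∪ (𝒞.filter fun C => T C = {y, z})) := by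
    intro C hC
    obtain ⟨hC, hV⟩ := mem_filter.1 hC
    have h2 := hc C hC
    rw [mem_union]
    by_cases hx : x ∈ T C
    · right
      rw [mem_union]
      by_cases hy : y ∈ T C
      · left
        rw [mem_filter]
        refine ⟨hC, ?_⟩
        symm
        refine eq_of_subset_of_card_le ?_ ?_
        · intro a ha
          rw [mem_insert, mem_singleton] at ha
          rcases ha with rfl | rfl <;> assumption
        · rw [h2, card_pair hxy]
      · right
        obtain ⟨z, hz, hzx⟩ : ∃ z ∈ T C, z ≠ x := by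
          by_contra hcon
          push Not at hcon
          have : (T C).card ≤ ({x} : Finset (Fin n)).card :=
            card_le_card fun a ha => by rw [mem_singleton]; exact hcon a ha
          rw [h2, card_singleton] at this
          omega
        have hzy : z ≠ y := fun h => hy (h ▸ hz)
        rw [mem_biUnion]
        refine ⟨z, ?_, ?_⟩
        · rw [mem_sdiff, mem_insert, mem_singleton]
          exact ⟨hV hz, by tauto⟩
        · rw [mem_union]
          left
          rw [mem_filter]
          refine ⟨hC, ?_⟩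
          symm
          refine eq_of_subset_of_card_le ?_ ?_
          · intro a ha
            rw [mem_insert, mem_singleton] at ha
            rcases ha with rfl | rfl <;> assumption
          · rw [h2, card_pair hzx.symm]
    · by_cases hy : y ∈ T C
      · right
        rw [mem_union]
        right
        obtain ⟨z, hz, hzy⟩ : ∃ z ∈ T C, z ≠ y := by
          by_contra hcon
          push Not at hcon
          have : (T C).card ≤ ({y} : Finset (Fin n)).card :=
            card_le_card fun a ha => by rw [mem_singleton]; exact hcon a ha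
          rw [h2, card_singleton] at this
          omega
        have hzx : z ≠ x := fun h => hx (h ▸ hz)
        rw [mem_biUnion]
        refine ⟨z, ?_, ?_⟩
        · rw [mem_sdiff, mem_insert, mem_singleton]
          exact ⟨hV hz, by tauto⟩
        · rw [mem_union]
          right
          rw [mem_filter]
          refine ⟨hC, ?_⟩
          symm
          refine eq_of_subset_of_card_le ?_ ?_
          · intro a ha
            rw [mem_insert, mem_singleton] at ha
            rcases ha with rfl | rfl <;> assumption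
          · rw [h2, card_pair hzy.symm]
      · left
        rw [mem_filter]
        refine ⟨hC, fun a ha => ?_⟩
        rw [mem_sdiff, mem_insert, mem_singleton]
        refine ⟨hV ha, ?_⟩
        rintro (rfl | rfl) <;> contradiction
  refine (card_le_card h1).trans ((card_union_le _ _).trans ?_)
  refine Nat.add_le_add_left ((card_union_le _ _).trans ?_) _
  refine Nat.add_le_add_left (card_biUnion_le.trans ?_) _
  exact sum_le_sum fun z _ => card_union_le _ _

theorem main (hT : IsNCTeacher 𝒞 T) (hc : ∀ C ∈ 𝒞, (T C).card = 2) (v : ℕ) :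
    ∀ V : Finset (Fin n), V.card = v → 3 ≤ v →
      (𝒞.filter fun C => T C ⊆ V).card ≤ v * (v - 1) + v ^ 2 / 4 := by
  induction v using Nat.strong_induction_on with
  | _ v ih =>
    intro V hV hv
    rcases Nat.lt_or_ge v 5 with hv5 | hv5
    · have h := local_pow hT V
      rw [hV] at h
      interval_cases v
      · exact h
      · exact h
    · by_cases hall : ∀ P ∈ V.powersetCard 2, N 𝒞 T P ≤ 2
      · have h1 : (𝒞.filter fun C => T C ⊆ V) ⊆ (V.powersetCard 2).biUnion fun P =>
            𝒞.filter fun C => T C = P := by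
          intro C hC
          obtain ⟨hC, hCV⟩ := mem_filter.1 hC
          rw [mem_biUnion]
          exact ⟨T C, mem_powersetCard.2 ⟨hCV, hc C hC⟩, mem_filter.2 ⟨hC, rfl⟩⟩
        have h2 : (𝒞.filter fun C => T C ⊆ V).card ≤ v.choose 2 * 2 := by
          calc (𝒞.filter fun C => T C ⊆ V).card ≤ _ := card_le_card h1
            _ ≤ ∑ P ∈ V.powersetCard 2, (𝒞.filter fun C => T C = P).card := card_biUnion_le
            _ ≤ ∑ P ∈ V.powersetCard 2, 2 := sum_le_sum hall
            _ = v.choose 2 * 2 := by rw [sum_const, card_powersetCard, hV, smul_eq_mul]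
        have h3 : v.choose 2 * 2 = v * (v - 1) := by
          rw [Nat.choose_two_right]
          exact Nat.div_mul_cancel (Nat.even_mul_pred_self v).two_dvd
        omega
      · push Not at hall
        obtain ⟨P, hP, hN⟩ := hall
        obtain ⟨hPV, hP2⟩ := mem_powersetCard.1 hP
        obtain ⟨x, y, hxy, rfl⟩ := card_eq_two.1 hP2
        have h1 := decompose (V := V) hc hxy
        have hcard : (V \ {x, y}).card = v - 2 := by
          rw [card_sdiff_of_subset hPV, hV, card_pair hxy]
        have h2 := ih (v - 2) (by omega) (V \ {x, y}) hcard (by omega)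
        have h4 := N_pair_le hT hxy
        have h3 : ∑ z ∈ V \ {x, y}, (N 𝒞 T {x, z} + N 𝒞 T {y, z}) ≤
            (v - 2) * (8 - N 𝒞 T {x, y}) := by
          rw [← hcard, ← smul_eq_mul, ← sum_const]
          refine sum_le_sum fun z hz => ?_
          rw [mem_sdiff, mem_insert, mem_singleton] at hz
          have hzx : x ≠ z := fun h => hz.2 (Or.inl h.symm)
          have hzy : y ≠ z := fun h => hz.2 (Or.inr h.symm)
          have := N_triple_le hT hxy hzx hzy
          omega
        obtain ⟨u, rfl⟩ : ∃ u, v = u + 5 := ⟨v - 5, by omega⟩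
        have e1 : u + 5 - 2 = u + 3 := by omega
        have e2 : (u + 3) ^ 2 / 4 + (u + 4) = (u + 5) ^ 2 / 4 := by
          have : (u + 5) ^ 2 = (u + 3) ^ 2 + 4 * (u + 4) := by ring
          rw [this, Nat.add_mul_div_left _ _ (by norm_num)]
        rw [e1] at h2 h3
        have e3 : (u + 3) * (u + 3 - 1) + (4 * u + 14) = (u + 5) * (u + 5 - 1) := by
          have : u + 3 - 1 = u + 2 := by omega
          have h6 : u + 5 - 1 = u + 4 := by omega
          rw [this, h6]
          ring
        have h5 : N 𝒞 T {x, y} + (u + 3) * (8 - N 𝒞 T {x, y}) ≤ 5 * u + 18 := by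
          have h7 : N 𝒞 T {x, y} = 3 ∨ N 𝒞 T {x, y} = 4 := by omega
          rcases h7 with h7 | h7
          · rw [h7]; omega
          · rw [h7]; omega
        omega

/-- **Dimension two.** For `n ≥ 3`, `M_NC(n, 2) ≤ n (n - 1) + ⌊n² / 4⌋`. -/
theorem upper (hn : 3 ≤ n) : MNCle n 2 ≤ n * (n - 1) + n ^ 2 / 4 := by
  refine csSup_le' ?_
  rintro m ⟨𝒞, h1, rfl⟩
  obtain ⟨T, hT, hc⟩ := exists_teacher 𝒞
  obtain ⟨T', hT', hc'⟩ := enlarge (d := 2) (by omega) hT fun C hC => (hc C hC).trans h1
  have h := main hT' hc' n univ (by simp) hn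
  have h2 : 𝒞.filter (fun C => T' C ⊆ univ) = 𝒞 := by
    apply filter_true_of_mem
    intro C _
    exact subset_univ _
  rwa [h2] at h

/-! ### The lower bound -/

/-- the points of the class -/
def pt (a : ℕ) (q : (Fin n × Bool) × (Fin n × Bool)) : Finset (Fin n) :=
  univ.filter fun z => if z.1 < a then (q.1.1 ≤ z ↔ q.1.2 = true) else (q.2.1 ≤ z ↔ q.2.2 = true)

/-- the indices of the points -/
def idx (n a : ℕ) : Finset ((Fin n × Bool) × (Fin n × Bool)) :=
  ((univ.filter fun x : Fin n => x.1 < a) ×ˢ univ) ×ˢ ((univ.filter fun x : Fin n => ¬ x.1 < a) ×ˢ univ)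

theorem mem_pt_left {a : ℕ} {q : (Fin n × Bool) × (Fin n × Bool)} {z : Fin n} (hz : z.1 < a) :
    z ∈ pt a q ↔ (q.1.1 ≤ z ↔ q.1.2 = true) := by
  simp [pt, hz]

theorem mem_pt_right {a : ℕ} {q : (Fin n × Bool) × (Fin n × Bool)} {z : Fin n} (hz : ¬ z.1 < a) :
    z ∈ pt a q ↔ (q.2.1 ≤ z ↔ q.2.2 = true) := by
  simp [pt, hz]

theorem aux {x x' : Fin n} {α α' : Bool} (h1 : (x ≤ x ↔ α = true) ↔ (x' ≤ x ↔ α' = true))
    (h2 : (x ≤ x' ↔ α = true) ↔ (x' ≤ x' ↔ α' = true)) : x = x' ∧ α = α' := by
  have hx : x ≤ x := le_rfl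
  have hx' : x' ≤ x' := le_rfl
  rcases lt_trichotomy x x' with h | h | h
  · exfalso
    have h3 : ¬ x' ≤ x := not_le.2 h
    have h4 : x ≤ x' := h.le
    rw [iff_true_left hx, iff_false_left h3] at h1
    rw [iff_true_left hx', iff_true_left h4] at h2
    cases α <;> cases α' <;> simp at h1 h2
  · subst h
    refine ⟨rfl, ?_⟩
    cases α <;> cases α' <;> simp at h1 <;> rfl
  · exfalso
    have h3 : ¬ x ≤ x' := not_le.2 h
    have h4 : x' ≤ x := h.le
    rw [iff_true_left hx, iff_true_left h4] at h1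
    rw [iff_true_left hx', iff_false_left h3] at h2
    cases α <;> cases α' <;> simp at h1 h2

theorem noclash {a : ℕ} {q q' : (Fin n × Bool) × (Fin n × Bool)} (hq : q ∈ idx n a)
    (hq' : q' ∈ idx n a) (hne : q ≠ q') :
    ∃ z ∈ ({q.1.1, q.2.1} ∪ {q'.1.1, q'.2.1} : Finset (Fin n)), ¬ (z ∈ pt a q ↔ z ∈ pt a q') := by
  by_contra hcon
  push Not at hcon
  apply hne
  simp only [idx, mem_product, mem_filter, mem_univ, true_and, and_true] at hq hq'
  have h1 := hcon q.1.1 (by simp)
  have h2 := hcon q'.1.1 (by simp)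
  have h3 := hcon q.2.1 (by simp)
  have h4 := hcon q'.2.1 (by simp)
  rw [mem_pt_left hq.1, mem_pt_left hq.1] at h1
  rw [mem_pt_left hq'.1, mem_pt_left hq'.1] at h2
  rw [mem_pt_right hq.2, mem_pt_right hq.2] at h3
  rw [mem_pt_right hq'.2, mem_pt_right hq'.2] at h4
  obtain ⟨h5, h6⟩ := aux h1 h2
  obtain ⟨h7, h8⟩ := aux h3 h4
  exact Prod.ext (Prod.ext h5 h6) (Prod.ext h7 h8)

theorem card_idx {a : ℕ} (ha : a ≤ n) : (idx n a).card = 4 * a * (n - a) := by
  have h1 : (univ.filter fun x : Fin n => x.1 < a).card = a := by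
    rw [Fin.card_filter_val_lt]
    exact min_eq_right ha
  have h2 : (univ.filter fun x : Fin n => ¬ x.1 < a).card = n - a := by
    have h3 := card_filter_add_card_filter_not (s := (univ : Finset (Fin n))) (fun x : Fin n => x.1 < a)
    rw [h1, card_univ, Fintype.card_fin] at h3
    omega
  unfold idx
  rw [card_product, card_product, card_product, h1, h2]
  simp
  ring

theorem lower (hn : 3 ≤ n) : n ^ 2 - n % 2 ≤ MNC n 2 := by
  classical
  set a := n / 2 with ha
  have han : a ≤ n := by omega
  have hinj : Set.InjOn (pt (n := n) a) (idx n a : Set ((Fin n × Bool) × (Fin n × Bool))) := by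
    intro q hq q' hq' h
    by_contra hne
    obtain ⟨z, _, h1⟩ := noclash hq hq' hne
    apply h1
    rw [h]
  have hval : 4 * a * (n - a) = n ^ 2 - n % 2 := by
    rcases Nat.even_or_odd' n with ⟨k, hk | hk⟩
    · have h1 : a = k := by omega
      have h2 : n - a = k := by omega
      have h3 : n % 2 = 0 := by omega
      rw [h1, h3, show n - k = k by omega, hk, Nat.sub_zero]
      ring
    · have h1 : a = k := by omega
      have h3 : n % 2 = 1 := by omega
      rw [h1, h3, show n - k = k + 1 by omega, hk]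
      have : (2 * k + 1) ^ 2 = 4 * k * (k + 1) + 1 := by ring
      rw [this]
      rfl
  have hcard : ((idx n a).image (pt a)).card = n ^ 2 - n % 2 := by
    rw [card_image_of_injOn hinj, card_idx han, hval]
  have hex : ∀ C : Finset (Fin n), ∃ q, C ∈ (idx n a).image (pt a) → q ∈ idx n a ∧ pt a q = C := by
    intro C
    by_cases hC : C ∈ (idx n a).image (pt a)
    · obtain ⟨q, hq, h⟩ := mem_image.1 hC
      exact ⟨q, fun _ => ⟨hq, h⟩⟩
    · exact ⟨((⟨0, by omega⟩, true), (⟨0, by omega⟩, true)), fun h => absurd h hC⟩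
  choose g hg using hex
  have hle : NCTD ((idx n a).image (pt a)) ≤ 2 := by
    refine Nat.sInf_le ⟨fun C => {(g C).1.1, (g C).2.1}, ?_, fun C _ => card_le_two⟩
    intro C hC C' hC' hne
    obtain ⟨h1, h2⟩ := hg C hC
    obtain ⟨h3, h4⟩ := hg C' hC'
    have hne' : g C ≠ g C' := by
      intro h
      apply hne
      rw [← h2, ← h4, h]
    obtain ⟨z, hz, h5⟩ := noclash h1 h3 hne'
    rw [h2, h4] at h5
    exact ⟨z, hz, h5⟩
  have hge : 2 ≤ NCTD ((idx n a).image (pt a)) := by
    by_contra hlt
    push Not at hlt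
    have h1 : NCTD ((idx n a).image (pt a)) ≤ 1 := by omega
    have h2 : ((idx n a).image (pt a)).card ≤ MNCle n 1 :=
      le_csSup (bdd n fun 𝒞 => NCTD 𝒞 ≤ 1) ⟨_, h1, rfl⟩
    have h3 := MNCle_bound (n := n) (d := 1) (by omega)
    have h4 : (2 * 1).choose 1 = 2 := by decide
    rw [h4, Nat.choose_one_right] at h3
    rw [hcard] at h2
    have h5 : 2 * n + 2 ≤ n ^ 2 := by nlinarith
    omega
  exact le_csSup (bdd n fun 𝒞 => NCTD 𝒞 = 2) ⟨_, le_antisymm hle hge, hcard⟩

/-- **Dimension two.** For `n ≥ 3`,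
`n² - (n mod 2) ≤ M_NC(n, 2) ≤ n (n - 1) + ⌊n² / 4⌋`. -/
theorem result (n : ℕ) (hn : 3 ≤ n) :
    n ^ 2 - n % 2 ≤ MNC n 2 ∧ MNC n 2 ≤ n * (n - 1) + n ^ 2 / 4 :=
  ⟨lower hn, (MNC_le_MNCle n 2).trans (upper hn)⟩

end Pool.Agent.Results.MP_4dbef5_lc.DimensionTwo
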